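import Pool.Agent.X83.DM.Stm

set_option autoImplicit false

namespace Pool.Agent.X131.DM.RES

open Pool.Agent.X83.DM MeasureTheory Set Filter Topology Real

theorem t : S_RES := by
  intro a c c' y g y' g' h h' s
  have hg : Continuous g := continuous_iff_continuousAt.2 fun x => (h.dg x).continuousAt
  have hg' : Continuous g' := continuous_iff_continuousAt.2 fun x => (h'.dg x).continuousAt
  have hF : ∀ r, HasDerivAt (fun r => g' r * g (s - r) - a * (y' r * y (s - r)))
      (-(c' - c) * (g' r * g (s - r))) r := by
    intro r
    have h1 : HasDerivAt (fun r => g (s - r)) (-(-(c * g (s - r)) - a * y (s - r))) r :=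
      HasDerivAt.comp_const_sub s r (h.dg (s - r))
    have h2 : HasDerivAt (fun r => y (s - r)) (-(g (s - r))) r :=
      HasDerivAt.comp_const_sub s r (h.dy (s - r))
    have h3 := ((h'.dg r).mul h1).sub (((h'.dy r).mul h2).const_mul a)
    refine h3.congr_deriv ?_
    ring
  have hcont : Continuous fun r => -(c' - c) * (g' r * g (s - r)) :=
    continuous_const.mul (hg'.mul (hg.comp (continuous_const.sub continuous_id)))
  have h4 := intervalIntegral.integral_eq_sub_of_hasDerivAt (a := 0) (b := s)
    (fun x _ => hF x) (hcont.intervalIntegrable 0 s)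
  rw [intervalIntegral.integral_const_mul] at h4
  rw [h4, sub_self, sub_zero, h.g0, h'.g0, h'.y0, h.y0]
  ring

end Pool.Agent.X131.DM.RES
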